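import Pool.Agent.CMG.Stmts

/-!
# Squad CMG, row HOM (helper21, double)
-/

set_option autoImplicit false

namespace Pool.Agent.CMG.H21

open Pool.Agent.LSG Pool.Agent.CMG

theorem hom : HomStmt := by
  intro D _ x hx
  let f : ℤ →ₗ[ℤ] Additive D := LinearMap.toSpanSingleton ℤ (Additive D) (Additive.ofMul x)
  have hf : Function.Injective f := by
    rw [← LinearMap.ker_eq_bot, LinearMap.ker_eq_bot']
    intro n hn
    have h1 : x ^ n = 1 := hn
    by_contra hne
    have h2 : x ^ n.natAbs = 1 := by
      rcases Int.natAbs_eq n with h | h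
      · rw [h] at h1
        simpa using h1
      · rw [h, zpow_neg, inv_eq_one] at h1
        simpa using h1
    exact hx n.natAbs (Int.natAbs_pos.2 hne) h2
  let g : ℤ →ₗ[ℤ] ℝ := LinearMap.toSpanSingleton ℤ ℝ 1
  obtain ⟨h, hh⟩ := (Module.Baer.of_divisible ℝ).extension_property f hf g
  refine ⟨fun d => h (Additive.ofMul d), fun a b => map_add h (Additive.ofMul a) (Additive.ofMul b), ?_⟩
  have h3 := LinearMap.congr_fun hh 1
  simpa [f, g] using h3

end Pool.Agent.CMG.H21
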